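import Pool.Agent.Kit.Rup

set_option autoImplicit false

/-! Front end of the refutation checker for clause lists in the usual integer format
(variables are `1, 2, ...`, a negative entry is a negated variable). -/

namespace Pool.Agent.Kit.Rup

/-- meaning of an integer literal under an assignment of the variables `1, 2, ...` -/
def litTrue (f : ℕ → Prop) (l : ℤ) : Prop := (0 < l ∧ f l.natAbs) ∨ (l < 0 ∧ ¬ f l.natAbs)

/-- the assignment satisfies the clause -/
def holds (f : ℕ → Prop) (c : List ℤ) : Prop := ∃ l ∈ c, litTrue f l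

/-- position of a literal in the bit masks -/
def pos (N : ℕ) (l : ℤ) : ℕ := if 0 < l then 63 + l.natAbs else 63 + N + l.natAbs

def mean (N : ℕ) (f : ℕ → Prop) (j : ℕ) : Prop :=
  (64 ≤ j ∧ j < 64 + N ∧ f (j - 63)) ∨ (64 + N ≤ j ∧ j < 64 + 2 * N ∧ ¬ f (j - 63 - N))

theorem good_mean (N : ℕ) (f : ℕ → Prop) : Good N (mean N f) := by
  constructor
  · rintro j hj (⟨h, _⟩ | ⟨h, _⟩) <;> omega
  · rintro j (⟨h1, h2, h3⟩ | ⟨h1, h2, h3⟩) (⟨g1, g2, g3⟩ | ⟨g1, g2, g3⟩)
    · omega
    · apply g3
      have : j + N - 63 - N = j - 63 := by omega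
      rw [this]; exact h3
    · omega
    · omega

def encC (N : ℕ) : List ℤ → ℕ
  | [] => 0
  | l :: c => Nat.lor (Nat.shiftLeft 1 (pos N l)) (encC N c)

def okC (N : ℕ) : List ℤ → Bool
  | [] => true
  | l :: c => (Nat.ble 1 l.natAbs && Nat.ble l.natAbs N) && okC N c

noncomputable def matchAll (N : ℕ) (t : Tr) : List (List ℤ) → ℕ → Bool
  | [], _ => true
  | c :: cs, i =>
    (okC N c && Nat.beq (Nat.shiftRight (t.get i) 64) (Nat.shiftRight (encC N c) 64)) &&
      force (Nat.succ i) (matchAll N t cs)

theorem encC_testBit (N : ℕ) (c : List ℤ) (l : ℤ) (h : l ∈ c) :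
    (encC N c).testBit (pos N l) = true := by
  induction c with
  | nil => simp at h
  | cons a c ih =>
    rw [encC]
    change ((1 <<< pos N a) ||| encC N c).testBit (pos N l) = true
    rw [Nat.testBit_or, Bool.or_eq_true]
    rcases List.mem_cons.mp h with rfl | h
    · left
      rw [Nat.shiftLeft_eq, one_mul]
      exact Nat.testBit_two_pow_self
    · right; exact ih h

theorem okC_spec (N : ℕ) (c : List ℤ) (h : okC N c = true) (l : ℤ) (hl : l ∈ c) :
    1 ≤ l.natAbs ∧ l.natAbs ≤ N := by
  induction c with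
  | nil => simp at hl
  | cons a c ih =>
    rw [okC, Bool.and_eq_true, Bool.and_eq_true] at h
    rcases List.mem_cons.mp hl with rfl | hl
    · exact ⟨Nat.le_of_ble_eq_true h.1.1, Nat.le_of_ble_eq_true h.1.2⟩
    · exact ih h.2 hl

theorem sat_of_match (N : ℕ) (f : ℕ → Prop) (c : List ℤ) (d : ℕ) (hok : okC N c = true)
    (hd : Nat.shiftRight d 64 = Nat.shiftRight (encC N c) 64) (hc : holds f c) :
    Sat (mean N f) d := by
  obtain ⟨l, hl, ht⟩ := hc
  obtain ⟨h1, h2⟩ := okC_spec N c hok l hl
  refine ⟨pos N l, ?_, ?_⟩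
  · have hb := encC_testBit N c l hl
    have hp : 64 ≤ pos N l := by unfold pos; split <;> omega
    obtain ⟨k, hk⟩ := Nat.exists_eq_add_of_le hp
    have e1 : (d >>> 64).testBit k = (encC N c >>> 64).testBit k := by
      change (Nat.shiftRight d 64).testBit k = (Nat.shiftRight (encC N c) 64).testBit k
      rw [hd]
    rw [Nat.testBit_shiftRight, Nat.testBit_shiftRight, ← hk, hb] at e1
    exact e1
  · unfold pos mean
    rcases ht with ⟨hp, hf⟩ | ⟨hn, hf⟩
    · left
      rw [if_pos hp]
      refine ⟨by omega, by omega, ?_⟩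
      have : 63 + l.natAbs - 63 = l.natAbs := by omega
      rw [this]; exact hf
    · right
      rw [if_neg (by omega)]
      refine ⟨by omega, by omega, ?_⟩
      have : 63 + N + l.natAbs - 63 - N = l.natAbs := by omega
      rw [this]; exact hf

theorem match_sound (N : ℕ) (f : ℕ → Prop) (t : Tr) :
    ∀ (cs : List (List ℤ)) (i : ℕ), matchAll N t cs i = true → (∀ c ∈ cs, holds f c) →
      ∀ k < cs.length, Sat (mean N f) (t.get (i + k)) := by
  intro cs
  induction cs with
  | nil => intro i _ _ k hk; simp at hk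
  | cons c cs ih =>
    intro i h hc k hk
    rw [matchAll, force_eq, Bool.and_eq_true, Bool.and_eq_true] at h
    cases k with
    | zero =>
      exact sat_of_match N f c _ h.1.1 (Nat.eq_of_beq_eq_true h.1.2) (hc c (by simp))
    | succ k =>
      have := ih (i + 1) h.2 (fun d hd => hc d (by simp [hd])) k (by simpa using hk)
      have e : i + (k + 1) = i + 1 + k := by omega
      rw [e]; exact this

/-- The bridge: if the generated refutation `R` shows that the first `n0` clauses of the store are
contradictory, and the clause list `cs` matches them, no assignment satisfies `cs`. -/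
theorem refute {N n0 : ℕ} {t : Tr}
    (R : ∀ L : ℕ → Prop, Good N L → (∀ i < n0, Sat L (t.get i)) → False)
    (cs : List (List ℤ)) (hlen : Nat.ble n0 cs.length = true) (hm : matchAll N t cs 0 = true)
    (f : ℕ → Prop) (hf : ∀ c ∈ cs, holds f c) : False := by
  refine R (mean N f) (good_mean N f) fun i hi => ?_
  have := match_sound N f t cs 0 hm hf i (lt_of_lt_of_le hi (Nat.le_of_ble_eq_true hlen))
  simpa using this

end Pool.Agent.Kit.Rup
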